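import Pool.Agent.Lib.SmJ.Inst.Facts
import Pool.Agent.Lib.SmJ.E.FinLoc
import Pool.Agent.Lib.SmJ.E.E6J
import Pool.Agent.Lib.SM.E.FinCl
import Pool.Agent.Lib.SmD.ValIner
import Pool.Agent.Lib.SmD.Frob

/-!
SMITH for Jacobians (MP_950c68_ag), instance: local finiteness (part E3) for the curve
`y ^ 2 = ∏ (x - a i)`, `a i ∈ K`: `fin_pmJ`; hence `EFacts`, `Sys.Ok` for `sysOf Ω a` and `E6Prop`
without hypotheses.
-/

set_option autoImplicit false

open Polynomial Pool.Agent.BSDFF Pool.Agent.Lib.SmD Pool.Agent.SmithE Pool.Agent.BSDP.R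

namespace Pool.Agent.SmJ

open L (EV dotE rts map_rts gal E6Prop)

section gen

variable {K Om : Type} [Field K] [Field Om] [Algebra K Om] {w : ValuationSubring Om} {π : K}

/-- At every place only finitely many points of `2`-power order are fixed up to sign by the
decomposition group. -/
theorem fin_pmJ [Infinite K] [IsSepClosure K Om] [Infinite (IsLocalRing.ResidueField w)]
    (hL : LocHyp K w π) {g : ℕ} (a : Fin (2 * g + 1) → K) [HypA (rts Om a)] :
    {Q : JJ (ff (rts Om a)) | (∃ j : ℕ, (2 : ℕ) ^ j • Q = 0) ∧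
      ∀ s ∈ dec K w, ga a s Q = Q ∨ ga a s Q = -Q}.Finite := by
  have : IsGalois K Om := inferInstance
  have : IsSepClosed Om := IsSepClosure.sep_closed K
  have := hL.fin
  obtain ⟨φ, hφ⟩ : ∃ φ, IsFrob K w φ := exists_frob w
  have hval : ∀ x : Om, x ≠ 0 → (∀ s ∈ dec K w, s x = x) →
      ∃ n : ℤ, w.valuation x = w.valuation (algebraMap K Om π) ^ n :=
    fun x hx hfix => value_iner hL hx fun σ hσ => hfix σ (iner_le_dec _ _ hσ)
  exact fin_loc (w := w) (a := rts Om a) hL (fin_classes hL hφ hval)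
    (fun s _ => map_ff _ fun i => s.commutes (a i))

end gen

variable {k : Type} [Field k] {g : ℕ} [Finite k] {Ω : Type} [Field Ω] [Algebra (RatFunc k) Ω]
  [IsSepClosure (RatFunc k) Ω]

/-- The points of `2`-power order fixed by the decomposition group. -/
theorem fin_decJ (a : Fin (2 * g + 1) → RatFunc k) [HypA (rts Ω a)] (w : ValuationSubring Ω)
    (π : RatFunc k) (hL : LocHyp (RatFunc k) w π) :
    {Q : JJ (ff (rts Ω a)) | (∀ s ∈ dec (RatFunc k) w, ga a s Q = Q) ∧
      ∃ i : ℕ, (2 : ℕ) ^ i • Q = 0}.Finite := by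
  have : Infinite (RatFunc k) := Infinite.of_injective _ (IsFractionRing.injective k[X] (RatFunc k))
  have := infinite_resF (k := k) w
  exact (fin_pmJ hL a).subset fun Q hQ => ⟨hQ.2, fun s hs => Or.inl (hQ.1 s hs)⟩

/-- **E6** for the Jacobian of `y ^ 2 = ∏ (x - a i)` over `k(t)`. -/
theorem e6_rts (h2 : (2 : k) ≠ 0) (a : Fin (2 * g + 1) → RatFunc k) [HypA (rts Ω a)] :
    E6Prop k (gal Ω a) := by
  have : IsSepClosed Ω := IsSepClosure.sep_closed (RatFunc k)
  exact E6.e6_jac h2 a (fun Q => exists_half Q) (fin_decJ a)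

/-- The field `fin` of `EFacts`. -/
theorem fin_invJ (a : Fin (2 * g + 1) → k[X]) [HypP a] (v : Place k (RatFunc k))
    (chi : (Ω ≃ₐ[RatFunc k] Ω) → ZMod 2) :
    {Q : VJ Ω (rfa a) | ∀ s ∈ dv Ω v, dl chi Q s = 0}.Finite := by
  have : Infinite (RatFunc k) := Infinite.of_injective _ (IsFractionRing.injective k[X] (RatFunc k))
  obtain ⟨π, -, hL⟩ := exists_locHyp (Om := Ω) (HypP.two a) v
  have := infinite_resF (k := k) (ab Ω v)
  refine Set.Finite.of_injOn (f := fun Q : VJ Ω (rfa a) => (Q : JJ (ff (rts Ω (rfa a))))) ?_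
    Subtype.val_injective.injOn (fin_pmJ hL (rfa a))
  intro Q hQ
  refine ⟨Q.2, fun s hs => ?_⟩
  have h : sgn (chi s) • (s • Q) - Q = 0 := hQ s hs
  rw [sub_eq_zero] at h
  unfold sgn at h
  split_ifs at h with h0
  · left
    rw [one_smul] at h
    exact congrArg Subtype.val h
  · right
    rw [neg_one_smul] at h
    exact congrArg Subtype.val (neg_eq_iff_eq_neg.mp h)

/-- All facts on the Jacobian. -/
theorem eFacts (a : Fin (2 * g + 1) → k[X]) [HypP a] : EFacts Ω a :=
  eFacts_of a fun v chi _ => fin_invJ a v chi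

/-- **`Sys.Ok`** for `y ^ 2 = ∏ (x - a i)` over `k(t)`. -/
theorem sysOf_ok (a : Fin (2 * g + 1) → k[X]) [HypP a] : (sysOf Ω a).Ok :=
  sysOf_ok_of a (eFacts a)

end Pool.Agent.SmJ
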