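import Pool.Agent.Lib.SmJ.Inst.RecInst
import Pool.Agent.Lib.SmJ.P.ParJ

/-!
SMITH for Jacobians, block P: the parity theorem for the curve `y ^ 2 = ∏ (x - a i)` over `k(t)`: the
tower of a vector of primes is alternating, and the number of Selmer cocycles of level `i` of the
twist grows like `#V1 ^ i` or like `(2 #V1) ^ i`.
-/

set_option autoImplicit false

open Polynomial

namespace Pool.Agent.SmJ

open Pool.Agent.SmP
open L (EV)

variable {k : Type} [Field k] [Finite k] {Ω : Type} [Field Ω] [Algebra (RatFunc k) Ω]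
  [IsSepClosure (RatFunc k) Ω] {g : ℕ} (a : Fin (2 * g + 1) → k[X]) [HypP a]

theorem altn_sysOf {ch : k[X] → (Ω ≃ₐ[RatFunc k] Ω) → ZMod 2} {d : TwData k (EV g)}
    {J : Type} [Fintype J] {p : J → k[X]} (h : (sysOf Ω a).Ok)
    (hcode : CodeOk (sysOf Ω a) ch d p) : (twJ (sysOf Ω a) h ch d p).Altn := by
  obtain ⟨e, he⟩ := weil_sysOf (Ω := Ω) a h
  exact altn_twJ_weil h hcode he (recipM_sysOf a h)

end Pool.Agent.SmJ
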