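import Pool.Agent.Lib.SmJ.Inst.Inst
import Pool.Agent.Lib.SmJ.P.Kramer

/-!
SMITH for Jacobians over `F_q(t)` (MP_950c68_ag), parity: the local quadratic forms of the curve
`y ^ 2 = ∏ (x - a i)`: `qvJ v x = ∑_(i < j) [x i, x j] + ∑ i [f'(a i), x i]`. `qOk`: `Sys.QOk`.
-/

set_option autoImplicit false

open Polynomial Pool.Agent.BSDFF Pool.Agent.Lib.SmD Pool.Agent.SmithE Pool.Agent.BSDP.R

namespace Pool.Agent.SmJ

open L (EV dotE dotE_alt dotE_nd dotE_comm rts map_rts dpr dpr_ne_zero dvd_dpr)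

variable {k : Type} [Field k] {g : ℕ}

section recip

open Pool.Agent.SmF (LocVals HomG eps)

variable {Ω : Type} [Field Ω] [Algebra (RatFunc k) Ω]
  {sg ph : Place k (RatFunc k) → (Ω ≃ₐ[RatFunc k] Ω)} {n : ℕ}

/-- `(∑ x) (∑ y)` -/
private noncomputable def e1 (n : ℕ) :
    (Fin n → ZMod 2) →ₗ[ZMod 2] (Fin n → ZMod 2) →ₗ[ZMod 2] ZMod 2 :=
  LinearMap.mk₂ (ZMod 2) (fun x y => (∑ i, x i) * ∑ i, y i)
    (fun x x' y => by simp only [Pi.add_apply, Finset.sum_add_distrib]; ring)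
    (fun c x y => by simp only [Pi.smul_apply, smul_eq_mul, ← Finset.mul_sum]; ring)
    (fun x y y' => by simp only [Pi.add_apply, Finset.sum_add_distrib]; ring)
    (fun c x y => by simp only [Pi.smul_apply, smul_eq_mul, ← Finset.mul_sum]; ring)

/-- `∑ x i y i` -/
private noncomputable def e2 (n : ℕ) :
    (Fin n → ZMod 2) →ₗ[ZMod 2] (Fin n → ZMod 2) →ₗ[ZMod 2] ZMod 2 :=
  LinearMap.mk₂ (ZMod 2) (fun x y => ∑ i, x i * y i)
    (fun x x' y => by simp only [Pi.add_apply, add_mul, Finset.sum_add_distrib])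
    (fun c x y => by simp only [Pi.smul_apply, smul_eq_mul, mul_assoc, Finset.mul_sum])
    (fun x y y' => by simp only [Pi.add_apply, mul_add, Finset.sum_add_distrib])
    (fun c x y => by
      simp only [Pi.smul_apply, smul_eq_mul, mul_left_comm, Finset.mul_sum])

/-- the pairs of values of a homomorphism at a place -/
private def pv (sg ph : Place k (RatFunc k) → (Ω ≃ₐ[RatFunc k] Ω))
    (c : (Ω ≃ₐ[RatFunc k] Ω) → Fin n → ZMod 2) (v : Place k (RatFunc k)) (i : Fin n) :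
    ZMod 2 × ZMod 2 := (c (sg v) i, c (ph v) i)

private theorem brk_sum1 (ep : ZMod 2) (c d : (Ω ≃ₐ[RatFunc k] Ω) → Fin n → ZMod 2)
    (v : Place k (RatFunc k)) :
    E4.brk ep (∑ i, pv sg ph c v i) (∑ i, pv sg ph d v i) =
      sym (e1 n) ep (c (sg v), c (ph v)) (d (sg v), d (ph v)) := by
  rw [E4.brk, sym, Prod.fst_sum, Prod.snd_sum, Prod.fst_sum, Prod.snd_sum]
  rfl

private theorem brk_sum2 (ep : ZMod 2) (c d : (Ω ≃ₐ[RatFunc k] Ω) → Fin n → ZMod 2)
    (v : Place k (RatFunc k)) :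
    ∑ i, E4.brk ep (pv sg ph c v i) (pv sg ph d v i) =
      sym (e2 n) ep (c (sg v), c (ph v)) (d (sg v), d (ph v)) := by
  unfold E4.brk sym
  simp only [Finset.sum_add_distrib, ← Finset.mul_sum]
  rfl

private theorem hs_unr (ep : ZMod 2) {u : Fin n → ZMod 2 × ZMod 2} (h : ∀ i, (u i).1 = 0) :
    E4.hs ep u = 0 := by
  unfold E4.hs
  simp [h]

private theorem hs_single (ep : ZMod 2) (i : Fin n) (z : ZMod 2 × ZMod 2) :
    E4.hs ep (fun j => if j = i then z else 0) = 0 := by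
  have h1 : ∀ j : Fin n, (if j = i then z else (0 : ZMod 2 × ZMod 2)).1 =
      if j = i then z.1 else 0 := fun j => by split_ifs <;> rfl
  have h3 : ∀ j : Fin n, (if j = i then z else (0 : ZMod 2 × ZMod 2)).2 =
      if j = i then z.2 else 0 := fun j => by split_ifs <;> rfl
  have h4 : ∑ j : Fin n, ((if j = i then z.1 else 0 : ZMod 2)).val = z.1.val := by
    rw [Finset.sum_eq_single i]
    · rw [if_pos rfl]
    · intro j _ hj
      rw [if_neg hj, ZMod.val_zero]
    · intro h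
      exact absurd (Finset.mem_univ i) h
  have h5 : ∑ j : Fin n, (if j = i then z.1 else 0 : ZMod 2) * (if j = i then z.2 else 0) =
      z.1 * z.2 := by
    rw [Finset.sum_eq_single i]
    · rw [if_pos rfl, if_pos rfl]
    · intro j _ hj
      rw [if_neg hj, zero_mul]
    · intro h
      exact absurd (Finset.mem_univ i) h
  unfold E4.hs
  simp only [h1, h3, h4, h5, Finset.sum_ite_eq', Finset.mem_univ, if_true]
  have h6 : ((z.1.val.choose 2 : ℕ) : ZMod 2) = 0 := by
    rw [Nat.choose_eq_zero_of_lt (z.1.val_lt), Nat.cast_zero]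
  rw [h6, mul_zero, add_zero]
  exact CharTwo.add_self_eq_zero _

/-- the Hasse sum of the pairs of values -/
private noncomputable def Rv (sg ph : Place k (RatFunc k) → (Ω ≃ₐ[RatFunc k] Ω))
    (c : (Ω ≃ₐ[RatFunc k] Ω) → Fin n → ZMod 2) (v : Place k (RatFunc k)) : ZMod 2 :=
  E4.hs (eps v) (pv sg ph c v)

private theorem Rv_add (c d : (Ω ≃ₐ[RatFunc k] Ω) → Fin n → ZMod 2) (v : Place k (RatFunc k)) :
    Rv sg ph (c + d) v = Rv sg ph c v + Rv sg ph d v +
      sym (e1 n) (eps v) (c (sg v), c (ph v)) (d (sg v), d (ph v)) +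
      sym (e2 n) (eps v) (c (sg v), c (ph v)) (d (sg v), d (ph v)) := by
  have h := E4.hs_add (eps v) (pv sg ph c v) (pv sg ph d v)
  rw [← brk_sum1, ← brk_sum2]
  exact h

variable [Finite k] [IsSepClosure (RatFunc k) Ω]

omit [Finite k] in
private theorem Rv_fin (H : LocVals sg ph) (h2 : (2 : k) ≠ 0)
    {c : (Ω ≃ₐ[RatFunc k] Ω) → Fin n → ZMod 2} (hc : HomG c) :
    (Function.support (Rv sg ph c)).Finite := by
  refine (SmFJ.fin_ramV H h2 hc).subset fun v hv h => hv ?_
  exact hs_unr _ fun i => congrFun h i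

omit [Finite k] in
private theorem sym_fin (H : LocVals sg ph) (h2 : (2 : k) ≠ 0)
    (e : (Fin n → ZMod 2) →ₗ[ZMod 2] (Fin n → ZMod 2) →ₗ[ZMod 2] ZMod 2)
    {c d : (Ω ≃ₐ[RatFunc k] Ω) → Fin n → ZMod 2} (hc : HomG c) (hd : HomG d) :
    (Function.support fun v => sym e (eps v) (c (sg v), c (ph v)) (d (sg v), d (ph v))).Finite := by
  refine ((SmFJ.fin_ramV H h2 hc).union (SmFJ.fin_ramV H h2 hd)).subset fun v hv => ?_
  by_contra hcon
  rw [Set.mem_union, not_or] at hcon
  exact hv (SmFJ.sym_unr _ (not_not.mp hcon.1) (not_not.mp hcon.2))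

private theorem Rv_sum_add (H : LocVals sg ph) (h2 : (2 : k) ≠ 0)
    {c d : (Ω ≃ₐ[RatFunc k] Ω) → Fin n → ZMod 2} (hc : HomG c) (hd : HomG d) :
    ∑ᶠ v, Rv sg ph (c + d) v = ∑ᶠ v, Rv sg ph c v + ∑ᶠ v, Rv sg ph d v := by
  have f1 := Rv_fin H h2 hc
  have f2 := Rv_fin H h2 hd
  have f3 := sym_fin H h2 (e1 n) hc hd
  have f4 := sym_fin H h2 (e2 n) hc hd
  have f12 : (Function.support fun v => Rv sg ph c v + Rv sg ph d v).Finite :=
    (f1.union f2).subset (Function.support_add _ _)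
  have f123 : (Function.support fun v => Rv sg ph c v + Rv sg ph d v +
      sym (e1 n) (eps v) (c (sg v), c (ph v)) (d (sg v), d (ph v))).Finite :=
    (f12.union f3).subset (Function.support_add _ _)
  rw [finsum_congr (Rv_add c d), finsum_add_distrib f123 f4, finsum_add_distrib f12 f3,
    finsum_add_distrib f1 f2, SmFJ.recip H h2 (e1 n) c d hc hd, SmFJ.recip H h2 (e2 n) c d hc hd,
    add_zero, add_zero]

private theorem Rv_mask (H : LocVals sg ph) (h2 : (2 : k) ≠ 0)
    {c : (Ω ≃ₐ[RatFunc k] Ω) → Fin n → ZMod 2} (hc : HomG c) (S : Finset (Fin n)) :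
    ∑ᶠ v, Rv sg ph (fun s i => if i ∈ S then c s i else 0) v = 0 := by
  have hm : ∀ S : Finset (Fin n), HomG fun (s : Ω ≃ₐ[RatFunc k] Ω) (i : Fin n) =>
      if i ∈ S then c s i else 0 := by
    intro S
    refine ⟨hc.1.comp fun x i => if i ∈ S then x i else 0, fun s t => ?_⟩
    funext i
    change (if i ∈ S then c (s * t) i else 0) =
      (if i ∈ S then c s i else 0) + if i ∈ S then c t i else 0
    rw [hc.2]
    split_ifs
    · rfl
    · rw [add_zero]
  induction S using Finset.induction_on with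
  | empty =>
    refine finsum_eq_zero_of_forall_eq_zero fun v => hs_unr _ fun i => ?_
    change (if i ∈ (∅ : Finset (Fin n)) then c (sg v) i else 0) = 0
    rw [if_neg (Finset.notMem_empty i)]
  | insert a S ha ih =>
    have h1 : (fun (s : Ω ≃ₐ[RatFunc k] Ω) (i : Fin n) => if i ∈ insert a S then c s i else 0) =
        (fun s i => if i ∈ S then c s i else 0) + fun s i => if i ∈ ({a} : Finset (Fin n)) then c s i else 0 := by
      funext s i
      change _ = (if i ∈ S then c s i else 0) + if i ∈ ({a} : Finset (Fin n)) then c s i else 0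
      by_cases hia : i = a
      · subst hia
        rw [if_pos (Finset.mem_insert_self _ _), if_neg ha, if_pos (Finset.mem_singleton_self _),
          zero_add]
      · have h3 : i ∈ insert a S ↔ i ∈ S := by simp [hia]
        have h4 : i ∉ ({a} : Finset (Fin n)) := by simp [hia]
        simp only [h3]
        rw [if_neg h4, add_zero]
    rw [h1, Rv_sum_add H h2 (hm S) (hm {a}), ih, zero_add]
    refine finsum_eq_zero_of_forall_eq_zero fun v => ?_
    have h5 : pv sg ph (fun s i => if i ∈ ({a} : Finset (Fin n)) then c s i else 0) v =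
        fun j => if j = a then (c (sg v) a, c (ph v) a) else 0 := by
      funext j
      by_cases hj : j = a
      · subst hj
        simp [pv]
      · simp [pv, hj]
    rw [Rv, h5]
    exact hs_single _ _ _

/-- Reciprocity for the Hasse sums. -/
theorem hs_recip (H : LocVals sg ph) (h2 : (2 : k) ≠ 0)
    {c : (Ω ≃ₐ[RatFunc k] Ω) → Fin n → ZMod 2} (hc : HomG c) :
    ∑ᶠ v, E4.hs (eps v) (fun i => (c (sg v) i, c (ph v) i)) = 0 := by
  have h := Rv_mask H h2 hc Finset.univ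
  simp only [Finset.mem_univ, if_true] at h
  exact h

omit [Finite k] in
theorem hs_fin (H : LocVals sg ph) (h2 : (2 : k) ≠ 0)
    {c : (Ω ≃ₐ[RatFunc k] Ω) → Fin n → ZMod 2} (hc : HomG c) :
    (Function.support fun v => E4.hs (eps v) (fun i => (c (sg v) i, c (ph v) i))).Finite :=
  Rv_fin H h2 hc

/-- Reciprocity for `∑ i, [c i, d i]`. -/
theorem brk_recip (H : LocVals sg ph) (h2 : (2 : k) ≠ 0)
    {c d : (Ω ≃ₐ[RatFunc k] Ω) → Fin n → ZMod 2} (hc : HomG c) (hd : HomG d) :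
    ∑ᶠ v, ∑ i, E4.brk (eps v) (c (sg v) i, c (ph v) i) (d (sg v) i, d (ph v) i) = 0 := by
  exact (finsum_congr fun v => brk_sum2 (sg := sg) (ph := ph) (eps v) c d v).trans
    (SmFJ.recip H h2 (e2 n) c d hc hd)

omit [Finite k] in
theorem brk_fin (H : LocVals sg ph) (h2 : (2 : k) ≠ 0)
    {c d : (Ω ≃ₐ[RatFunc k] Ω) → Fin n → ZMod 2} (hc : HomG c) (hd : HomG d) :
    (Function.support fun v => ∑ i, E4.brk (eps v) (c (sg v) i, c (ph v) i)
      (d (sg v) i, d (ph v) i)).Finite := by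
  refine (sym_fin H h2 (e2 n) hc hd).subset fun v hv h => hv ?_
  exact (brk_sum2 (sg := sg) (ph := ph) (eps v) c d v).trans h

end recip

section main

variable (Ω : Type) [Field Ω] [Algebra (RatFunc k) Ω] (a : Fin (2 * g + 1) → k[X])

/-- The characters of the `f'(a i)`. -/
noncomputable def mJ (s : Ω ≃ₐ[RatFunc k] Ω) (i : Fin (2 * g + 1)) : ZMod 2 :=
  chi (RatFunc k) (E4.dd (rfa a) i) s

/-- The local quadratic forms. -/
noncomputable def qvJ (v : Place k (RatFunc k)) (x : EV g × EV g) : ZMod 2 :=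
  E4.hs (SmF.eps v) (prs x) +
    ∑ i, E4.brk (SmF.eps v) (mJ Ω a (sg Ω v) i, mJ Ω a (ph Ω v) i) (prs x i)

variable {Ω a}

theorem mJ_homG [HypP a] [IsSepClosure (RatFunc k) Ω] : SmF.HomG (mJ Ω a) := by
  have h2K := SmF.two_ratFunc (HypP.two a)
  have h := fun i => SmF.chi_homG (Ω := Ω) h2K (E4.dd_ne (HypK.inj (a := rfa a)) i)
  have h1 : (mJ Ω a) = fun s => ∑ i, Pi.single i (chi (RatFunc k) (E4.dd (rfa a) i) s) := by
    funext s
    exact (Finset.univ_sum_single (mJ Ω a s)).symm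
  rw [h1]
  refine SmFJ.homG_sum _ fun i _ =>
    ⟨(h i).1.comp (fun x => (Pi.single i x : Fin (2 * g + 1) → ZMod 2)), fun s t => ?_⟩
  have h3 : chi (RatFunc k) (E4.dd (rfa a) i) (s * t) = _ := (h i).2 s t
  change (Pi.single i (chi (RatFunc k) (E4.dd (rfa a) i) (s * t)) : Fin (2 * g + 1) → ZMod 2) = _
  rw [h3]
  exact Pi.single_add _ _ _

/-- **The quadratic forms vanish on the local Kummer groups** and satisfy the reciprocity law. -/
theorem qOk [HypP a] [Finite k] [IsSepClosure (RatFunc k) Ω] : (sysOf Ω a).QOk (qvJ Ω a) := by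
  have h2 : (2 : k) ≠ 0 := HypP.two a
  have : IsSepClosed Ω := IsSepClosure.sep_closed (RatFunc k)
  have : Infinite (RatFunc k) := Infinite.of_injective _ (IsFractionRing.injective k[X] (RatFunc k))
  have H := locVals (k := k) (Om := Ω) h2
  have h2K := SmF.two_ratFunc h2
  refine ⟨?_, ?_, ?_⟩
  · intro v x y
    have h := E4.hs_add (SmF.eps v) (prs x) (prs y)
    rw [sum_prs, E4.brk_zero_left, add_zero] at h
    change E4.hs (SmF.eps v) (fun i => prs x i + prs y i) + ∑ i, E4.brk (SmF.eps v) _ (prs x i + prs y i) =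
      (E4.hs (SmF.eps v) (prs x) + ∑ i, E4.brk (SmF.eps v) _ (prs x i)) +
        (E4.hs (SmF.eps v) (prs y) + ∑ i, E4.brk (SmF.eps v) _ (prs y i)) +
        sym (dotE g) (SmF.eps v) x y
    rw [h, sym_eq_brk]
    simp only [E4.brk_add_right, Finset.sum_add_distrib]
    ring
  · rintro chi hchi v x ⟨Q, -, hx1, hx2⟩
    obtain ⟨f, hf, hchi'⟩ := SmF.kummer h2K (c := chi) hchi
    obtain ⟨m, hm, hm'⟩ := Sm.Inst.exists_half_resCard (Ω := Ω) h2 v
    have hc : chi = Pool.Agent.Lib.SmD.chi (RatFunc k) f := funext hchi'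
    subst hc
    rw [qvJ, hm']
    refine quadJ (rfa a) (val_two h2 v) (sg_iner h2 v) (ph_frob v) hm hf hx1 hx2 fun i => ?_
    obtain ⟨r, hr⟩ := SmF.exists_sqrt (Ω := Ω) h2K (E4.dd (rfa a) i)
    have toSg : ∀ s : Ω ≃ₐ[RatFunc k] Ω,
        Sg s r (Pool.Agent.Lib.SmD.chi (RatFunc k) (E4.dd (rfa a) i) s) := by
      intro s
      rw [Sg, SmF.chi_spec hr s]
      rcases zcases (Pool.Agent.Lib.SmD.chi (RatFunc k) (E4.dd (rfa a) i) s) with h | h
      · rw [h]
        simp [Sm.sgn]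
      · rw [h, ZMod.val_one]
        simp [Sm.sgn]
    refine ⟨r, ?_, toSg _, toSg _⟩
    rw [hr, E4.dd, E4.dd, map_prod]
    exact Finset.prod_congr rfl fun j _ => map_sub _ _ _
  · intro c hc
    have hc' : SmF.HomG fun s => ((c s).1 : Fin (2 * g + 1) → ZMod 2) := by
      have h1 : SmF.TF c := hc.1
      refine ⟨h1.comp fun x => x.1, fun s t => ?_⟩
      exact congrArg Subtype.val (hc.2 s t)
    change ∑ᶠ v, (E4.hs (SmF.eps v) (fun i => ((c (sg Ω v)).1 i, (c (ph Ω v)).1 i)) +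
      ∑ i, E4.brk (SmF.eps v) (mJ Ω a (sg Ω v) i, mJ Ω a (ph Ω v) i)
        ((c (sg Ω v)).1 i, (c (ph Ω v)).1 i)) = 0
    rw [finsum_add_distrib (hs_fin H h2 hc') (brk_fin H h2 mJ_homG hc'), hs_recip H h2 hc',
      brk_recip H h2 mJ_homG hc', add_zero]

end main

end Pool.Agent.SmJ
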