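import Pool.Agent.Lib.SmJ.Inst.Loc
import Pool.Agent.Lib.SmJ.L.TwJ
import Pool.Agent.Lib.Sm.Inst.Inst
import Pool.Agent.Lib.SM.C.Hasse
import Pool.Agent.Lib.SmFJ.V

/-!
SMITH for Jacobians over `F_q(t)` (MP_950c68_ag): the instance of the abstract structure `Sys` for the
curve `y ^ 2 = ∏ (x - a i)` over `k(t)`, and `Sys.Ok` for it, given the facts `EFacts` on the
Jacobian (halving, the action on the `2 ^ j`-torsion, good places, local finiteness).
-/

set_option autoImplicit false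

open Polynomial Pool.Agent.BSDFF Pool.Agent.Lib.SmD Pool.Agent.SmithE Pool.Agent.BSDP.R

namespace Pool.Agent.SmJ

open L (EV dotE dotE_alt dotE_nd dotE_comm rts map_rts dpr dpr_ne_zero dvd_dpr)

variable {k : Type} [Field k] {g : ℕ}

/-- The standing hypotheses over `k(t)`. -/
class HypP (a : Fin (2 * g + 1) → k[X]) : Prop where
  inj : Function.Injective a
  two : (2 : k) ≠ 0

/-- The roots in `k(t)`. -/
noncomputable abbrev rfa (a : Fin (2 * g + 1) → k[X]) : Fin (2 * g + 1) → RatFunc k :=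
  fun i => algebraMap k[X] (RatFunc k) (a i)

instance (a : Fin (2 * g + 1) → k[X]) [HypP a] : HypK (rfa a) where
  inj := (IsFractionRing.injective k[X] (RatFunc k)).comp HypP.inj
  two := SmF.two_ratFunc (HypP.two a)

/-- The abstract structure for `y ^ 2 = ∏ (x - a i)` over `k(t)`. -/
noncomputable def sysOf (Ω : Type) [Field Ω] [Algebra (RatFunc k) Ω] (a : Fin (2 * g + 1) → k[X])
    [HypP a] : Sys (Ω ≃ₐ[RatFunc k] Ω) (VJ Ω (rfa a)) (EV g) (Place k (RatFunc k)) where
  NN := SmD.NN (RatFunc k) Ω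
  D := fun v => dv Ω v
  phi := fun v => ph Ω v
  sg := fun v => sg Ω v
  eps := fun v => SmF.eps v
  iota := iotaJ Ω (rfa a)
  e := dotE g
  good := {v | ∃ (P : k[X]) (hP : Irreducible P), P.Monic ∧ v = placeOf P hP ∧ ¬ P ∣ dpr a}
  inf := placeInfty k

/-- What is needed on the Jacobian. -/
structure EFacts (Ω : Type) [Field Ω] [Algebra (RatFunc k) Ω] (a : Fin (2 * g + 1) → k[X])
    [HypP a] : Prop where
  half : ∀ Q : JJ (ff (rts Ω (rfa a))), ∃ R, (2 : ℕ) • R = Q
  act_fin : ∀ j : ℕ, ∃ N ∈ SmD.NN (RatFunc k) Ω, ∀ s ∈ N, ∀ Q : JJ (ff (rts Ω (rfa a))),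
    (2 : ℕ) ^ j • Q = 0 → actK (rfa a) s Q = Q
  good : ∀ (P : k[X]) (hP : Irreducible P), ¬ P ∣ dpr a →
    ∀ s ∈ iner (RatFunc k) (ab Ω (placeOf P hP)), ∀ Q : VJ Ω (rfa a), s • Q = Q
  fin : ∀ (v : Place k (RatFunc k)) (chi : (Ω ≃ₐ[RatFunc k] Ω) → ZMod 2),
    (sysOf Ω a).HomG chi → {Q : VJ Ω (rfa a) | ∀ s ∈ dv Ω v, dl chi Q s = 0}.Finite

variable [Finite k] {Ω : Type} [Field Ω] [Algebra (RatFunc k) Ω]

/-- **All hypotheses of the abstract part.** -/
theorem sysOf_ok_of [IsSepClosure (RatFunc k) Ω] (a : Fin (2 * g + 1) → k[X]) [HypP a]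
    (E : EFacts Ω a) : (sysOf Ω a).Ok := by
  have h2 : (2 : k) ≠ 0 := HypP.two a
  have ha : Function.Injective a := HypP.inj
  have : IsSepClosed Ω := IsSepClosure.sep_closed (RatFunc k)
  have : IsGalois (RatFunc k) Ω := inferInstance
  have : Infinite (RatFunc k) := Infinite.of_injective _ (IsFractionRing.injective k[X] (RatFunc k))
  refine
    { top_mem := SmD.top_mem_NN
      inf_mem := fun N hN N' hN' => SmD.inf_mem_NN hN hN'
      normal := fun N hN => SmD.NN.normal hN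
      two_pow := fun N hN => hN.2.2
      phi_mem := fun v => ph_mem v
      sg_mem := fun v => sg_mem h2 v
      fin1 := inferInstanceAs (Finite (EV g))
      e_alt := dotE_alt
      e_nondeg := fun w h => dotE_nd w fun y => by rw [dotE_comm]; exact h y
      iota_inj := iotaJ_injective Ω (rfa a)
      iota_range := iotaJ_range Ω (rfa a)
      iota_fix := smul_iotaJ (rfa a)
      half := ?_
      tors := ?_
      act_fin := ?_
      unr := fun N hN => (Sm.Inst.finite_iner_not_le hN).subset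
        fun v hv hle => hv (hle (sg_iner h2 v))
      good_fin := ?_
      good_triv := ?_
      inf_not_good := ?_
      homD := fun v c h1 h3 h4 h5 => homD h2 v c h1 h3 h4 h5
      hasse := SmithC.hasse h2
      recip := (sysOf Ω a).smfj_recip h2 rfl rfl rfl rfl
      corr := (sysOf Ω a).smfj_corr h2 rfl rfl rfl
      dual := (sysOf Ω a).smfj_dual h2 dotE_alt
        (fun w h => dotE_nd w fun y => by rw [dotE_comm]; exact h y) rfl rfl rfl rfl
      fin_inv := fun chi h v => E.fin v chi h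
      isot := ?_ }
  · intro Q
    obtain ⟨R, hR⟩ := E.half Q.1
    obtain ⟨j, hj⟩ := Q.2
    refine ⟨⟨R, j + 1, ?_⟩, Subtype.ext hR⟩
    rw [pow_succ, mul_smul, hR, hj]
  · intro Q
    obtain ⟨j, hj⟩ := Q.2
    exact ⟨j, Subtype.ext hj⟩
  · intro j
    obtain ⟨N, hN, h⟩ := E.act_fin j
    exact ⟨N, hN, fun s hs Q hQ => Subtype.ext (h s hs Q.1 (congrArg Subtype.val hQ))⟩
  · refine ((Set.finite_singleton (placeInfty k)).union
      (Sm.Inst.finite_dvd (dpr_ne_zero ha))).subset ?_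
    intro v hv
    rcases place_cases v with rfl | ⟨P, hP, hm, rfl⟩
    · exact Or.inl rfl
    · right
      refine ⟨P, hP, hm, rfl, ?_⟩
      by_contra hd
      exact hv ⟨P, hP, hm, rfl, hd⟩
  · rintro v ⟨P, hP, hm, rfl, hd⟩ Q
    exact E.good P hP hd _ (sg_iner h2 _) Q
  · rintro ⟨P, hP, hm, h, -⟩
    exact SmF.placeInfty_ne hP h
  · rintro chi hchi v x ⟨Q, -, hx1, hx2⟩ y ⟨Q', -, hy1, hy2⟩
    obtain ⟨f, hf, hchi'⟩ := SmF.kummer (SmF.two_ratFunc h2) (c := chi) hchi
    obtain ⟨m, hm, hm'⟩ := Sm.Inst.exists_half_resCard (Ω := Ω) h2 v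
    have hc : chi = Pool.Agent.Lib.SmD.chi (RatFunc k) f := funext hchi'
    subst hc
    change sym (dotE g) (SmF.eps v) x y = 0
    rw [hm']
    exact isotJ (rfa a) (val_two h2 v) (sg_iner h2 v) (ph_frob v) hm hf hx1 hx2 hy1 hy2

end Pool.Agent.SmJ
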