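import Pool.Agent.Lib.SmJ.Inst.Inst
import Pool.Agent.Lib.Sm.P.LHInst
import Pool.Agent.Lib.SmJ.P.Sym
import Pool.Agent.Lib.SmJ.P.MInst
import Pool.Agent.Lib.SmJ.P.WJ3

/-!
SMITH for Jacobians, block P: the reciprocity `RecipM` and the Weil pairings for the system `sysOf`,
with coefficients in the module `MuT Ω` of the roots of unity of 2-power order.
-/

set_option autoImplicit false

open Polynomial Pool.Agent.BSDFF Pool.Agent.Lib.SmD Pool.Agent.SmithE Pool.Agent.BSDP.R

namespace Pool.Agent.SmJ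

open Pool.Agent.SmP
open L (EV dotE rts map_rts)

variable {k : Type} [Field k] [Finite k] {Ω : Type} [Field Ω] [Algebra (RatFunc k) Ω]
  [IsSepClosure (RatFunc k) Ω] {g : ℕ} (a : Fin (2 * g + 1) → k[X]) [HypP a]

/-- The homomorphisms `al`, `be`. -/
theorem sysOf_LH : ∃ al be : Place k (RatFunc k) → (Ω ≃ₐ[RatFunc k] Ω) → ZMod 2,
    (sysOf Ω a).LH al be := by
  have h2 : (2 : k) ≠ 0 := HypP.two a
  have : IsSepClosed Ω := IsSepClosure.sep_closed (RatFunc k)
  have : IsGalois (RatFunc k) Ω := inferInstance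
  choose f hf0 hfs hfp using fun v : Place k (RatFunc k) => exists_chi_pair (Om := Ω) h2 v 1 0
  choose g hg0 hgs hgp using fun v : Place k (RatFunc k) => exists_chi_pair (Om := Ω) h2 v 0 1
  exact ⟨fun v => chi (RatFunc k) (f v), fun v => chi (RatFunc k) (g v),
    { al_hom := fun v => SmF.chi_homG (SmF.two_ratFunc h2) (hf0 v)
      be_hom := fun v => SmF.chi_homG (SmF.two_ratFunc h2) (hg0 v)
      al_sg := hfs
      al_phi := hfp
      be_sg := hgs
      be_phi := hgp }⟩

/-- `MFr` for the roots of unity of 2-power order. -/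
theorem mfr_sysOf : (sysOf Ω a).MFr (MuT Ω) := by
  intro v
  obtain ⟨m, h1, h3, h4, h5⟩ := Sm.Inst.mfr_core (Ω := Ω) (HypP.two a) v
  let j : MuT Ω →+ Additive Ωˣ := (muSub Ω).subtype
  have hj : Function.Injective j := Subtype.val_injective
  have hjs : ∀ (s : Ω ≃ₐ[RatFunc k] Ω) (x : MuT Ω), (((j (s • x)).toMul : Ωˣ) : Ω) =
      s (((j x).toMul : Ωˣ) : Ω) := fun _ _ => rfl
  have hz : ∀ x : MuT Ω, ∃ r : ℕ, (((j x).toMul : Ωˣ) : Ω) ^ 2 ^ r = 1 := by
    intro x
    obtain ⟨r, hr⟩ := MuT.tors x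
    refine ⟨r, ?_⟩
    have h6 : (2 : ℕ) ^ r • j x = 0 := by rw [← map_nsmul, hr, map_zero]
    have h7 : ((j x).toMul : Ωˣ) ^ 2 ^ r = 1 := by
      have := congrArg Additive.toMul h6
      simpa using this
    rw [← Units.val_pow_eq_pow_val, h7, Units.val_one]
  refine ⟨m, h1, fun x => ?_, fun x => ?_, h5⟩
  · obtain ⟨r, hr⟩ := hz x
    apply hj
    apply Additive.toMul.injective
    apply Units.ext
    exact (hjs _ x).trans (h3 r _ hr)
  · obtain ⟨r, hr⟩ := hz x
    apply hj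
    apply Additive.toMul.injective
    apply Units.ext
    refine (hjs _ x).trans ((h4 r _ hr).trans ?_)
    rw [map_nsmul, toMul_nsmul, Units.val_pow_eq_pow_val]

/-- The Hasse principle without a condition at infinity. -/
theorem hasseF_sysOf : (sysOf Ω a).HasseF := by
  intro c hc hcoc loc
  refine SmithC.hasse_fin (HypP.two a) c hc hcoc fun v hv => ?_
  obtain ⟨b, ⟨N, hN, h⟩, hs⟩ := loc v hv
  exact ⟨b, ⟨N, SmD.NN.normal hN, SmD.NN.isOpen hN, h⟩, hs⟩

/-- Reciprocity with coefficients in the roots of unity of 2-power order. -/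
theorem recipM_sysOf (hok : (sysOf Ω a).Ok) : (sysOf Ω a).RecipM (hfM Ω) := by
  have h2 : (2 : k) ≠ 0 := HypP.two a
  obtain ⟨al, be, hl⟩ := sysOf_LH (Ω := Ω) a
  have hM : (sysOf Ω a).MOk (hfM Ω) :=
    Sys.mok_ratFunc h2 hok rfl (fun _ => rfl) fun _ => rfl
  have hF := mfr_sysOf (Ω := Ω) a
  have hZ : (sysOf Ω a).RecipZ :=
    Sys.recipZ_of hok hM hF (hasseF_sysOf a) hl (Sys.Rz.theta h2 hok hM hF hl rfl rfl rfl rfl rfl)
  exact hZ.recipM hok hM

/-- The Weil pairings with values in the roots of unity of 2-power order. -/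
theorem weil_sysOf (hok : (sysOf Ω a).Ok) : ∃ e, Weil (sysOf Ω a) e (hfM Ω) := by
  have : IsSepClosed Ω := IsSepClosure.sep_closed (RatFunc k)
  have : Infinite (RatFunc k) := Infinite.of_injective _ (IsFractionRing.injective k[X] (RatFunc k))
  have : Infinite Ω := Infinite.of_injective _ (algebraMap (RatFunc k) Ω).injective
  refine ⟨_, weil_inst (a := rts Ω (rfa a)) (sysOf Ω a) (AddSubgroup.subtype _)
    (fun s i => s.commutes _) (fun _ _ => rfl) (fun x => ?_) rfl hok.half⟩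
  change io (rts Ω (rfa a)) x.1 = _
  rw [io_eq, cls_PS]
  rfl

end Pool.Agent.SmJ
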