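import Pool.Agent.Lib.SmJ.E.Tw
import Pool.Agent.Lib.SmJ.E.Act

/-!
SMITH for Jacobians (MP_950c68_ag), instance: the Galois module `VJ Ω a` = the elements of `2`-power
order of the class group of `Ω[x, y] / (y ^ 2 - ∏ (x - a i))` and the map
`iotaJ : EV g →+ VJ Ω a`, `x ↦ ∑ x i [(a i, 0)]` (names for the objects of `E/Act.lean`).
-/

set_option autoImplicit false

open Polynomial

namespace Pool.Agent.SmJ

open L (rts map_rts)

section

variable {K : Type} (Ω : Type) [Field K] [Field Ω] [Algebra K Ω] {g : ℕ}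
  (a : Fin (2 * g + 1) → K)

/-- The standing hypotheses over `K`. -/
class HypK (a : Fin (2 * g + 1) → K) : Prop where
  inj : Function.Injective a
  two : (2 : K) ≠ 0

instance [HypK a] : HypA (rts Ω a) where
  inj := (algebraMap K Ω).injective.comp HypK.inj
  two := by
    intro h
    apply HypK.two (a := a)
    apply (algebraMap K Ω).injective
    rw [map_ofNat, map_zero, h]

variable [HypK a]

variable {Ω} in
/-- The action on the class group. -/
noncomputable abbrev actK (s : Ω ≃ₐ[K] Ω) : JJ (ff (rts Ω a)) →+ JJ (ff (rts Ω a)) := ga a s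

variable {Ω} in
theorem actK_mul (s t : Ω ≃ₐ[K] Ω) (Q : JJ (ff (rts Ω a))) :
    actK a (s * t) Q = actK a s (actK a t Q) := ga_mul a s t Q

theorem actK_one (Q : JJ (ff (rts Ω a))) : actK a (1 : Ω ≃ₐ[K] Ω) Q = Q := ga_one a Q

variable {Ω a} in
theorem smul_val (s : Ω ≃ₐ[K] Ω) (Q : VJ Ω a) : (s • Q : VJ Ω a).1 = actK a s Q.1 := rfl

variable {Ω a} in
theorem smul_ee (s : Ω ≃ₐ[K] Ω) (i : Fin (2 * g + 1)) :
    actK a s (ee (rts Ω a) i) = ee (rts Ω a) i :=
  act_ee _ (fun j => s.commutes (a j)) i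

end

section iota

variable {g : ℕ} {Om : Type} [Field Om] (a : Fin (2 * g + 1) → Om) [HypA a]

theorem eH_val (i : Fin (2 * g + 1)) (c : ZMod 2) : eH a i c = c.val • ee a i := by
  rcases zcase c with rfl | rfl
  · rw [map_zero, ZMod.val_zero, zero_smul]
  · rw [eH_one]
    exact (one_smul ℕ _).symm

theorem io_val (x : Fin (2 * g + 1) → ZMod 2) : io a x = ∑ i, (x i).val • ee a i := by
  rw [io_apply]
  exact Finset.sum_congr rfl fun i _ => eH_val a i _

end iota

section iotaK

variable {K : Type} (Ω : Type) [Field K] [Field Ω] [Algebra K Ω] {g : ℕ}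
  (a : Fin (2 * g + 1) → K) [HypK a]

open L

/-- The inclusion of the even vectors in the `2`-power torsion. -/
noncomputable abbrev iotaJ : EV g →+ VJ Ω a := iota Ω a

theorem iotaJ_val (x : EV g) : (iotaJ Ω a x).1 = io (rts Ω a) x.1 := rfl

variable {Ω} in
theorem smul_iotaJ (s : Ω ≃ₐ[K] Ω) (x : EV g) : s • iotaJ Ω a x = iotaJ Ω a x := iota_fix s x

theorem iotaJ_injective : Function.Injective (iotaJ Ω a) := iota_injective

theorem iotaJ_range [IsSepClosed Ω] (Q : VJ Ω a) (hQ : (2 : ℕ) • Q = 0) :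
    ∃ x, iotaJ Ω a x = Q := iota_range Q hQ

end iotaK

end Pool.Agent.SmJ
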