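import Pool.Agent.Lib.SmJ.Inst.Inst
import Pool.Agent.Lib.SmJ.I.ChOk
import Pool.Agent.Lib.SmJ.E.Kap
import Pool.Agent.Lib.Sm.Inst.ChInst

/-!
SMITH for Jacobians (MP_950c68_ag), instance: the facts `ChOk` on the quadratic characters for the
instance `sysOf`, the characters `chP Ω f = chi (RatFunc k) f` and the data `twdJ u hu ha hg` of the
curve `y ^ 2 = ∏ (x - a i)`.
-/

set_option autoImplicit false

open Polynomial Pool.Agent.BSDFF Pool.Agent.Lib.SmD Pool.Agent.SmithE Pool.Agent.BSDP.R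

namespace Pool.Agent.SmJ.Inst

open Pool.Agent.Sm.Inst (plF plF_eq two_K)
open Pool.Agent.SmJ.L

variable {k : Type} [Field k]

open scoped Classical in
/-- **`ChOk` for the concrete data.** -/
theorem chOk [Finite k] {Ω : Type} [Field Ω] [Algebra (RatFunc k) Ω]
    [IsSepClosure (RatFunc k) Ω] {g : ℕ} (a : Fin (2 * g + 1) → k[X]) [HypP a] {u : k}
    (hu : ¬ IsSquare u) (ha : Function.Injective a) (hg : Gen a) :
    ChOk (sysOf Ω a) (chP Ω) (twdJ u hu ha hg) plF := by
  have h2 : (2 : k) ≠ 0 := HypP.two (a := a)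
  have h2K := two_K h2
  have : IsSepClosed Ω := IsSepClosure.sep_closed (RatFunc k)
  have H := locVals (k := k) (Om := Ω) h2
  have hinj : ∀ {f : k[X]}, f ≠ 0 → algebraMap k[X] (RatFunc k) f ≠ 0 := fun hf => rf_ne_zero hf
  have hu0 : u ≠ 0 := by rintro rfl; exact hu ⟨0, by simp⟩
  refine
    { two := h2
      e_eq := rfl
      hom := fun f hf => SmF.chi_homG h2K (hinj hf)
      mul := ?_
      kummer := ?_
      cst := ?_
      u_ne := ?_
      pl_inj := ?_
      pl_inf := ?_
      pl_cases := ?_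
      good := ?_
      sg_self := ?_
      sg_off := ?_
      ph := ?_
      inf_sg := ?_
      inf_phi := ?_
      tor := ?_ }
  · intro f g hf hg s
    change chi (RatFunc k) (algebraMap k[X] (RatFunc k) (f * g)) s = _
    rw [map_mul]
    exact SmF.chi_mul_elt h2K (hinj hf) (hinj hg) s
  · intro c hc
    obtain ⟨f, hf, h1⟩ := SmF.kummer h2K (c := c) hc
    have hn : f.num ≠ 0 := RatFunc.num_ne_zero hf
    have hd : f.denom ≠ 0 := RatFunc.denom_ne_zero f
    refine ⟨f.num * f.denom, mul_ne_zero hn hd, fun s => ?_⟩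
    rw [h1 s]
    change _ = chi (RatFunc k) (algebraMap k[X] (RatFunc k) (f.num * f.denom)) s
    conv_lhs => rw [← RatFunc.num_div_denom f, div_eq_mul_inv]
    rw [map_mul, SmF.chi_mul_elt h2K (hinj hn) (inv_ne_zero (hinj hd)),
      SmF.chi_mul_elt h2K (hinj hn) (hinj hd), SmF.chi_inv h2K (hinj hd)]
  · intro c hc
    by_cases hs : IsSquare c
    · left
      obtain ⟨d, hd⟩ := hs
      intro s
      have hd0 : d ≠ 0 := by
        rintro rfl
        rw [mul_zero] at hd
        exact hc hd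
      change chi (RatFunc k) (algebraMap k[X] (RatFunc k) (C c)) s = 0
      rw [hd, C_mul, map_mul, ← sq]
      exact SmF.chi_sq h2K (hinj (C_ne_zero.mpr hd0)) s
    · right
      intro s
      have h4 := chi_const (Ω := Ω) h2K hu (f := C c) (C_ne_zero.mpr hc) s
      rw [leadingCoeff_C] at h4
      have h5 : lcz (C c) = 1 := by
        unfold lcz
        rw [leadingCoeff_C, if_neg hs]
      rw [h5, one_mul] at h4
      exact h4
  · by_contra hcon
    push Not at hcon
    have h5 : ∀ s : Ω ≃ₐ[RatFunc k] Ω,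
        chi (RatFunc k) (algebraMap k[X] (RatFunc k) (C u)) s = 0 := hcon
    have h6 := h5 (ph Ω (placeInfty k))
    rw [SmF.polyC, H.ph_const_infty hu0, SmF.sq2_eq_zero] at h6
    exact hu h6
  · intro P Q hP hPi hQ hQi hPQ
    rw [plF_eq hPi, plF_eq hQi] at hPQ
    exact placeOf_injective hPi hQi hP hQ hPQ
  · intro P hP hPi hh
    rw [plF_eq hPi] at hh
    exact SmF.placeInfty_ne hPi hh.symm
  · intro v
    rcases place_cases v with rfl | ⟨P, hP, hm, rfl⟩
    · exact Or.inl rfl
    · exact Or.inr ⟨P, hm, hP, (plF_eq hP).symm⟩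
  · intro P hP hPi
    rw [plF_eq hPi]
    have h7 := twdJ_ell_iff hu ha hg hP hPi
    constructor
    · rintro ⟨Q, hQ, hQm, hQP, hnd⟩ i hi
      have h8 : P = Q := placeOf_injective hPi hQ hP hQm hQP
      rw [← h8] at hnd
      exact hnd (h7.1 ⟨i, hi.symm⟩)
    · intro hne
      refine ⟨P, hPi, hP, rfl, fun hd => ?_⟩
      obtain ⟨i, hi⟩ := h7.2 hd
      exact hne i hi.symm
  · intro P hP hPi
    rw [plF_eq hPi]
    exact H.sg_self hPi
  · intro P f hP hPi hnd
    rw [plF_eq hPi]
    exact H.sg_of_not_dvd hPi hnd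
  · intro P f hP hPi hnd
    rw [plF_eq hPi]
    exact H.ph_leg hPi hnd
  · intro P Q hP hQ hdeg
    have h8 := H.sg_infty h2 hP
    have h9 := H.sg_infty h2 hQ
    rw [hdeg] at h8
    exact h8.trans h9.symm
  · intro P Q hP hQ hdeg
    have h8 := H.ph_infty h2 hP
    have h9 := H.ph_infty h2 hQ
    rw [hdeg] at h8
    exact h8.trans h9.symm
  · intro w z hz s
    have h8 := kapE (K := RatFunc k) (Ω := Ω)
      (a := rfa a) z.1 w (congrArg Subtype.val hz) s
    have h9 := mapW_chi (Ω := Ω) h2K hu ha hg s w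
    have h10 : mapW (fun i j => chi (RatFunc k) (rfa a i - rfa a j) s) w =
        mapW (fun i j => chi (RatFunc k) (rf (a i - a j)) s) w := by
      refine mapW_congr (fun i j _ => ?_) w
      rw [← map_sub]
    rw [h10, h9] at h8
    apply Subtype.ext
    refine h8.trans (congrArg (fun x : EV g => io (rts Ω (rfa a)) x.1) ?_)
    exact add_comm (chi (RatFunc k) (rf (C u)) s • (twdJ u hu ha hg).Tc w) _

end Pool.Agent.SmJ.Inst
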