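import Pool.Agent.Lib.SmJ.Inst.Inst
import Pool.Agent.Lib.SmJ.E.Good

/-!
SMITH for Jacobians over `F_q(t)` (MP_950c68_ag): the field `good` of `EFacts`.
-/

set_option autoImplicit false

open Polynomial Pool.Agent.BSDFF Pool.Agent.Lib.SmD Pool.Agent.SmithE Pool.Agent.BSDP.R

namespace Pool.Agent.SmJ

open L (EV dotE rts map_rts dpr dpr_ne_zero dvd_dpr)

variable {k : Type} [Field k] [Finite k] {g : ℕ} {Ω : Type} [Field Ω] [Algebra (RatFunc k) Ω]

/-- **the field `good`** -/
theorem efacts_good [IsSepClosure (RatFunc k) Ω] (a : Fin (2 * g + 1) → k[X]) [HypP a]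
    (P : k[X]) (hP : Irreducible P) (hd : ¬ P ∣ dpr a) (s : Ω ≃ₐ[RatFunc k] Ω)
    (hs : s ∈ iner (RatFunc k) (ab Ω (placeOf P hP))) (Q : VJ Ω (rfa a)) : s • Q = Q := by
  have h2 : (2 : k) ≠ 0 := HypP.two a
  have : IsSepClosed Ω := IsSepClosure.sep_closed (RatFunc k)
  have hinfK : Infinite (RatFunc k) :=
    Infinite.of_injective _ (IsFractionRing.injective k[X] (RatFunc k))
  have : Infinite Ω := Infinite.of_injective _ (algebraMap (RatFunc k) Ω).injective
  obtain ⟨p, hp⟩ := CharP.exists k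
  have hp1 : Fact p.Prime := ⟨(CharP.char_is_prime_or_zero k p).resolve_right (by
    rintro rfl
    have : CharZero k := CharP.charP_to_charZero k
    exact not_finite k)⟩
  have hpk : CharP (RatFunc k) p := inferInstance
  have hpΩ : CharP Ω p := charP_of_injective_algebraMap (algebraMap (RatFunc k) Ω).injective p
  have : Infinite (IsLocalRing.ResidueField (ab Ω (placeOf P hP))) := infinite_res p _
  obtain ⟨j, hj⟩ := Q.2
  apply Subtype.ext
  rw [smul_val]
  refine good_fix_a (a := rts Ω (rfa a)) (val_two h2 _) (fun i => val_poly_le P hP (a i)) ?_ hs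
    (fun i => s.commutes _) hj
  intro i i' hii
  change (ab Ω (placeOf P hP)).valuation (algebraMap (RatFunc k) Ω (rfa a i) -
    algebraMap (RatFunc k) Ω (rfa a i')) = 1
  rw [← map_sub, ← map_sub]
  exact val_poly_eq_one hP fun h => hd (h.trans (dvd_dpr hii))

end Pool.Agent.SmJ
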