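import Pool.Agent.Lib.SmJ.P.EvenKap
import Pool.Agent.Lib.SmJ.L.EvenGraph
import Pool.Agent.Lib.SmJ.L.AsmAbs
import Pool.Agent.Lib.SmJ.Inst.QInst
import Pool.Agent.Lib.SmJ.Inst.ChInst
import Pool.Agent.Lib.SmF.UnrC

/-!
# SMITH for Jacobians, parity: a family of twists whose 2-Selmer groups have square orders

`even_sysOf`: for the curve `y ^ 2 = ∏ (x - a i)` over `k(t)`, `-1` a square in `k`, such that for every
prime `P` dividing some difference and every `i` at most one of the differences `a i - a j` is divisible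
by `P` to an even power, and `D` squarefree, prime to the differences, such that for every `i` at most one
of the numbers `deg (a i - a j) + deg D` is even, the order of the 2-Selmer group of the twist by `D` is
a square.
-/

set_option autoImplicit false

open Polynomial Pool.Agent.BSDFF Pool.Agent.Lib.SmD Pool.Agent.SmithE Pool.Agent.BSDP.R

namespace Pool.Agent.SmJ

open L (EV dotE dotE_alt dotE_comm rts map_rts dpr dpr_ne_zero dvd_dpr mapW mapW_congr degv Mtc)

variable {k : Type} [Field k] {g : ℕ}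

section

variable {Ω : Type} [Field Ω] [Algebra (RatFunc k) Ω] [IsSepClosure (RatFunc k) Ω]

/-- The ramification of `f` at the place of `P` is the multiplicity of `P` in `f`. -/
theorem sg_mult {sg ph : Place k (RatFunc k) → (Ω ≃ₐ[RatFunc k] Ω)} (H : SmF.LocVals sg ph)
    (h2 : (2 : k) ≠ 0) {P : k[X]} (hP : Irreducible P) {f : k[X]} (hf : f ≠ 0) :
    Pool.Agent.Lib.SmD.chi (RatFunc k) (algebraMap k[X] (RatFunc k) f) (sg (placeOf P hP)) =
      multiplicity P f := by
  have h2K := SmF.two_ratFunc h2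
  have hfin : FiniteMultiplicity P f := FiniteMultiplicity.of_not_isUnit hP.not_isUnit hf
  obtain ⟨f', hf', hnd⟩ := hfin.exists_eq_pow_mul_and_not_dvd
  have hP0 := SmF.alg_ne hP.ne_zero
  have hf0 : f' ≠ 0 := by
    rintro rfl
    exact hnd (dvd_zero P)
  generalize multiplicity P f = m at hf' ⊢
  rw [hf', map_mul, map_pow, SmF.chi_mul_elt h2K (pow_ne_zero _ hP0) (SmF.alg_ne hf0),
    H.sg_of_not_dvd hP hnd, SmF.chi_pow h2K hP0, H.sg_self hP, mul_one, add_zero]

omit [IsSepClosure (RatFunc k) Ω] in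
/-- The weights at `s`. -/
noncomputable def wts (a : Fin (2 * g + 1) → k[X]) (s : Ω ≃ₐ[RatFunc k] Ω)
    (i j : Fin (2 * g + 1)) : ZMod 2 :=
  Pool.Agent.Lib.SmD.chi (RatFunc k) (algebraMap k[X] (RatFunc k) (a i - a j)) s

theorem chi_neg_one (h2 : (2 : k) ≠ 0) (hneg : IsSquare (-1 : k)) (s : Ω ≃ₐ[RatFunc k] Ω) :
    Pool.Agent.Lib.SmD.chi (RatFunc k) (-1 : RatFunc k) s = 0 := by
  have h2K := SmF.two_ratFunc h2
  obtain ⟨r, hr⟩ := hneg
  have hr0 : r ≠ 0 := by
    rintro rfl
    rw [mul_zero] at hr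
    exact neg_ne_zero.2 one_ne_zero hr
  have e : (-1 : RatFunc k) = (algebraMap k (RatFunc k) r) ^ 2 := by
    rw [← map_pow, sq, ← hr, map_neg, map_one]
  rw [e, SmF.chi_sq h2K (SmF.algC_ne hr0)]

theorem wts_symm (a : Fin (2 * g + 1) → k[X]) [HypP a] (hneg : IsSquare (-1 : k))
    (s : Ω ≃ₐ[RatFunc k] Ω) (i j : Fin (2 * g + 1)) : wts a s i j = wts a s j i := by
  have h2 : (2 : k) ≠ 0 := HypP.two a
  by_cases hij : i = j
  · rw [hij]
  · have h1 : a j - a i ≠ 0 := sub_ne_zero.2 fun h => hij (HypP.inj h).symm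
    unfold wts
    have e : algebraMap k[X] (RatFunc k) (a i - a j) =
        -1 * algebraMap k[X] (RatFunc k) (a j - a i) := by
      rw [map_sub, map_sub]
      ring
    rw [e, SmF.chi_mul_elt (SmF.two_ratFunc h2) (neg_ne_zero.2 one_ne_zero) (SmF.alg_ne h1),
      chi_neg_one h2 hneg, zero_add]

/-- The homomorphism which gives the local quadratic forms on the unramified elements. -/
noncomputable def thJ (a : Fin (2 * g + 1) → k[X]) [HypP a] (hneg : IsSquare (-1 : k))
    (s : Ω ≃ₐ[RatFunc k] Ω) : EV g := degv (wts a s) (wts_symm a hneg s)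

theorem thJ_val (a : Fin (2 * g + 1) → k[X]) [HypP a] (hneg : IsSquare (-1 : k))
    (s : Ω ≃ₐ[RatFunc k] Ω) : (thJ a hneg s).1 = mJ Ω a s := by
  classical
  have h2 : (2 : k) ≠ 0 := HypP.two a
  funext i
  have h1 : mJ Ω a s i = ∑ j ∈ Finset.univ.erase i,
      Pool.Agent.Lib.SmD.chi (RatFunc k) (rfa a i - rfa a j) s := by
    rw [mJ, E4.dd]
    refine SmF.chi_prod (SmF.two_ratFunc h2) _ _ (fun j hj => ?_) s
    exact sub_ne_zero.mpr fun h => (Finset.ne_of_mem_erase hj) (HypK.inj (a := rfa a) h).symm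
  rw [h1, thJ, L.degv_val]
  rw [← Finset.add_sum_erase _ _ (Finset.mem_univ i), if_pos rfl, zero_add]
  refine Finset.sum_congr rfl fun j hj => ?_
  rw [if_neg (Finset.ne_of_mem_erase hj).symm, wts, map_sub]

theorem thJ_homG (a : Fin (2 * g + 1) → k[X]) [HypP a] (hneg : IsSquare (-1 : k)) :
    (sysOf Ω a).HomG (thJ a hneg) := by
  have h := mJ_homG (Ω := Ω) (a := a)
  obtain ⟨⟨N, hN, h1⟩, h3⟩ := h
  refine ⟨⟨N, hN, fun s n hn => Subtype.ext ?_⟩, fun s t => Subtype.ext ?_⟩
  · rw [thJ_val, thJ_val]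
    exact h1 s n hn
  · change (thJ a hneg (s * t)).1 = (thJ a hneg s).1 + (thJ a hneg t).1
    rw [thJ_val, thJ_val, thJ_val]
    exact h3 s t

theorem qvJ_unr (a : Fin (2 * g + 1) → k[X]) [HypP a] (hneg : IsSquare (-1 : k))
    (v : Place k (RatFunc k)) (y : EV g) :
    qvJ Ω a v (0, y) = dotE g (thJ a hneg (sg Ω v)) y := by
  have h1 : ∀ i, prs ((0, y) : EV g × EV g) i = (0, y.1 i) := fun i => rfl
  rw [qvJ, L.dotE_apply, thJ_val]
  have h3 : E4.hs (SmF.eps v) (prs ((0, y) : EV g × EV g)) = 0 := by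
    unfold E4.hs
    simp [h1]
  rw [h3, zero_add]
  refine Finset.sum_congr rfl fun i _ => ?_
  rw [h1, E4.brk]
  simp

end

section

variable [Finite k] {Ω : Type} [Field Ω] [Algebra (RatFunc k) Ω] [IsSepClosure (RatFunc k) Ω]

/-- The everywhere unramified homomorphisms. -/
theorem card_unr_sysOf (a : Fin (2 * g + 1) → k[X]) [HypP a] (h : (sysOf Ω a).Ok) :
    Nat.card ((sysOf Ω a).Unr h) = 4 ^ g := by
  have h2 : (2 : k) ≠ 0 := HypP.two a
  have h2K := SmF.two_ratFunc h2
  have H := locVals (k := k) (Om := Ω) h2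
  obtain ⟨u, hu⟩ : ∃ u : k, ¬ IsSquare u := by
    have := Fintype.ofFinite k
    refine FiniteField.exists_nonsquare fun h0 => h2 ?_
    have h1 := CharP.cast_eq_zero k (ringChar k)
    rw [h0] at h1
    exact_mod_cast h1
  have hu0 : u ≠ 0 := by
    rintro rfl
    exact hu ⟨0, by ring⟩
  obtain ⟨χu, hχu⟩ : ∃ c : (Ω ≃ₐ[RatFunc k] Ω) → ZMod 2, c =
      fun s => Pool.Agent.Lib.SmD.chi (RatFunc k) (algebraMap k (RatFunc k) u) s := ⟨_, rfl⟩
  have hom : SmF.HomG χu := by
    rw [hχu]
    exact SmF.chi_homG h2K (SmF.algC_ne hu0)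
  have hsg : ∀ v, χu (sg Ω v) = 0 := fun v => by
    rw [hχu]
    exact H.sg_const v hu0
  have hph : χu (ph Ω (placeInfty k)) = 1 := by
    rw [hχu]
    exact H.ph_nonsq hu
  have hmem : ∀ w : EV g, (fun s => χu s • w) ∈ (sysOf Ω a).Unr h := by
    intro w
    refine ⟨⟨hom.1.comp fun x => x • w, fun s t => ?_⟩, fun v => ?_⟩
    · change χu (s * t) • w = χu s • w + χu t • w
      rw [hom.2, add_smul]
    · change χu (sg Ω v) • w = 0
      rw [hsg, zero_smul]
  let f : EV g → (sysOf Ω a).Unr h := fun w => ⟨fun s => χu s • w, hmem w⟩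
  have hf : Function.Bijective f := by
    constructor
    · intro w w' hw
      have h1 := congrFun (congrArg Subtype.val hw) (ph Ω (placeInfty k))
      change χu _ • w = χu _ • w' at h1
      rwa [hph, one_smul, one_smul] at h1
    · rintro ⟨c, hc, hc0⟩
      have hc' : ∀ i, SmF.HomG fun s => (c s).1 i := by
        intro i
        obtain ⟨⟨N, hN, h1⟩, h3⟩ := hc
        refine ⟨⟨N, hN, fun s n hn => ?_⟩, fun s t => ?_⟩
        · change (c (s * n)).1 i = (c s).1 i
          rw [h1 s n hn]
        · change (c (s * t)).1 i = (c s).1 i + (c t).1 i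
          rw [h3 s t]
          rfl
      have hb : ∀ i, ∃ b : ZMod 2, ∀ s, (c s).1 i = b * χu s := by
        intro i
        rw [hχu]
        refine H.unr_char h2 hu (hc' i) fun v => ?_
        have h1 : c (sg Ω v) = 0 := hc0 v
        change (c (sg Ω v)).1 i = 0
        rw [h1]
        rfl
      choose b hb using hb
      have hsum : ∑ i, b i = 0 := by
        have h1 : ∑ i, (c (ph Ω (placeInfty k))).1 i = 0 := (c (ph Ω (placeInfty k))).2
        simp only [hb, hph, mul_one] at h1
        exact h1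
      refine ⟨⟨b, hsum⟩, Subtype.ext (funext fun s => Subtype.ext (funext fun i => ?_))⟩
      change χu s * b i = (c s).1 i
      rw [hb i s, mul_comm]
  rw [← Nat.card_congr (Equiv.ofBijective f hf), L.card_EV]

/-- **A family of twists whose 2-Selmer groups have square orders.** -/
theorem even_sysOf (a : Fin (2 * g + 1) → k[X]) [HypP a] (h : (sysOf Ω a).Ok)
    (hneg : IsSquare (-1 : k))
    (hbad : ∀ P : k[X], Irreducible P → P ∣ dpr a → ∀ i j l : Fin (2 * g + 1), i ≠ j → i ≠ l →
      j ≠ l → Odd (multiplicity P (a i - a j)) ∨ Odd (multiplicity P (a i - a l)))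
    {D : k[X]} (hD : D ≠ 0) (hsq : Squarefree D)
    (hcop : ∀ P : k[X], Irreducible P → P ∣ D → ¬ P ∣ dpr a)
    (hinf : ∀ i j l : Fin (2 * g + 1), i ≠ j → i ≠ l → j ≠ l →
      Odd ((a i - a j).natDegree + D.natDegree) ∨ Odd ((a i - a l).natDegree + D.natDegree)) :
    IsSquare (Nat.card ((sysOf Ω a).Sel1 h (chP Ω D))) := by
  have h2 : (2 : k) ≠ 0 := HypP.two a
  have h2K := SmF.two_ratFunc h2
  have H := locVals (k := k) (Om := Ω) h2
  have hfD := SmF.alg_ne hD
  have hd : ∀ i j : Fin (2 * g + 1), i ≠ j → a i - a j ≠ 0 := fun i j hij =>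
    sub_ne_zero.2 fun h => hij (HypP.inj h)
  have hsgn : IsSepClosed Ω := IsSepClosure.sep_closed (RatFunc k)
  obtain ⟨X, hX⟩ : ∃ c : (Ω ≃ₐ[RatFunc k] Ω) → ZMod 2, c = chP Ω D := ⟨_, rfl⟩
  have hhomX : (sysOf Ω a).HomG (chP Ω D) := SmF.chi_homG h2K hfD
  have key : ∀ s p : Ω ≃ₐ[RatFunc k] Ω, Mtc (wts a s) (1 + X s) →
      ((∀ w : EV g, X s • w + mapW (wts a s) w = 0 → w = 0) ∧
      X s • thJ a hneg s + mapW (wts a s) (thJ a hneg s) = thJ a hneg s ∧
      dotE g (X p • thJ a hneg s + mapW (wts a p) (thJ a hneg s)) (thJ a hneg s) =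
        dotE g (thJ a hneg s) (thJ a hneg p)) := by
    intro s p hm
    have h1 : (1 : ZMod 2) + (1 + X s) = X s := by
      generalize X s = x
      revert x
      decide
    have k1 := hm.inj (wts_symm a hneg s)
    have k2 := hm.fix (wts_symm a hneg s)
    rw [h1] at k1 k2
    refine ⟨k1, k2, ?_⟩
    rw [map_add, LinearMap.add_apply, map_smul, LinearMap.smul_apply, dotE_alt, smul_zero,
      zero_add]
    exact L.dot_mapW _ (wts_symm a hneg p) _
  refine Sys.even_of_kap h qOk (thJ_homG a hneg) (qvJ_unr a hneg) hhomX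
    (fun s w => X s • w + mapW (wts a s) w) ?_ ?_ ?_ ?_
  · -- the halves of the 2-torsion
    intro z w hz s
    have h8 := kapE (K := RatFunc k) (Ω := Ω) (a := rfa a) z.1 w (congrArg Subtype.val hz) s
    have h10 : mapW (fun i j => Pool.Agent.Lib.SmD.chi (RatFunc k) (rfa a i - rfa a j) s) w =
        mapW (wts a s) w := by
      refine mapW_congr (fun i j _ => ?_) w
      rw [wts, map_sub]
    rw [h10] at h8
    have h9 : s • z - z = (sysOf Ω a).iota (mapW (wts a s) w) := Subtype.ext h8
    have h01 : ∀ x : ZMod 2, x = 0 ∨ x = 1 := by decide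
    rw [hX]
    rcases h01 (chP Ω D s) with h1 | h1
    · rw [dl, tw, h1, sgn, if_pos rfl, one_smul, zero_smul, zero_add, h9]
    · have h3 : (2 : ℕ) • ((2 : ℕ) • z + (s • z - z)) = 0 := by
        rw [hz, h9, ← map_add, ← map_nsmul]
        have : (2 : ℕ) • (w + mapW (wts a s) w) = 0 := by
          rw [two_smul]
          exact ZModModule.add_self _
        rw [this, map_zero]
      have h4 : (2 : ℕ) • z + (s • z - z) = -((2 : ℕ) • z + (s • z - z)) := by
        rw [← add_eq_zero_iff_eq_neg, ← two_smul ℕ]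
        exact h3
      rw [dl, tw, h1, sgn, if_neg one_ne_zero, neg_one_smul, one_smul, map_add, ← h9, ← hz, h4,
        two_smul]
      abel
  · intro v
    rcases place_cases v with rfl | ⟨P, hP, hPm, rfl⟩
    · right
      refine key (sg Ω (placeInfty k)) (ph Ω (placeInfty k)) fun i j l hij hil hjl => ?_
      have e1 : X (sg Ω (placeInfty k)) = D.natDegree := by
        rw [hX]
        exact H.sg_infty' h2 hD
      have e2 : ∀ i j : Fin (2 * g + 1), i ≠ j → wts a (sg Ω (placeInfty k)) i j =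
          (a i - a j).natDegree := fun i j hij => H.sg_infty' h2 (hd i j hij)
      have e3 : ∀ x y : ℕ, Odd (x + y) → (x : ZMod 2) = 1 + (y : ZMod 2) := by
        intro x y hxy
        rw [← ZMod.natCast_eq_one_iff_odd, Nat.cast_add] at hxy
        have h4 : ∀ x y : ZMod 2, x + y = 1 → x = 1 + y := by decide
        exact h4 _ _ hxy
      rw [e1, e2 i j hij, e2 i l hil]
      exact (hinf i j l hij hil hjl).imp (e3 _ _) (e3 _ _)
    · have e2 : ∀ i j : Fin (2 * g + 1), i ≠ j → wts a (sg Ω (placeOf P hP)) i j =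
          multiplicity P (a i - a j) := fun i j hij => sg_mult H h2 hP (hd i j hij)
      by_cases hPb : P ∣ dpr a
      · right
        refine key (sg Ω (placeOf P hP)) (ph Ω (placeOf P hP)) fun i j l hij hil hjl => ?_
        have hPD : ¬ P ∣ D := fun hd => hcop P hP hd hPb
        have e1 : X (sg Ω (placeOf P hP)) = 0 := by
          rw [hX]
          exact H.sg_of_not_dvd hP hPD
        rw [e1, add_zero, e2 i j hij, e2 i l hil]
        exact (hbad P hP hPb i j l hij hil hjl).imp
          (fun h => (ZMod.natCast_eq_one_iff_odd).2 h) fun h => (ZMod.natCast_eq_one_iff_odd).2 h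
      · have e3 : ∀ i j : Fin (2 * g + 1), i ≠ j → wts a (sg Ω (placeOf P hP)) i j = 0 := by
          intro i j hij
          exact H.sg_of_not_dvd hP fun hd => hPb (hd.trans (dvd_dpr hij))
        by_cases hPD : P ∣ D
        · right
          refine key (sg Ω (placeOf P hP)) (ph Ω (placeOf P hP)) fun i j l hij hil hjl => ?_
          left
          have e1 : X (sg Ω (placeOf P hP)) = 1 := by
            rw [hX]
            obtain ⟨D1, rfl⟩ := hPD
            have hD1 : D1 ≠ 0 := right_ne_zero_of_mul hD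
            have h4 : ¬ P ∣ D1 := by
              rintro ⟨D2, rfl⟩
              refine hP.not_isUnit (hsq P ⟨D2, by ring⟩)
            change Pool.Agent.Lib.SmD.chi (RatFunc k)
              (algebraMap k[X] (RatFunc k) (P * D1)) (sg Ω (placeOf P hP)) = 1
            rw [map_mul, SmF.chi_mul_elt h2K (SmF.alg_ne hP.ne_zero) (SmF.alg_ne hD1)]
            have e3 := H.sg_self hP
            have e4 := H.sg_of_not_dvd hP h4
            change Pool.Agent.Lib.SmD.chi (RatFunc k) _ (sg Ω (placeOf P hP)) = 1 at e3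
            change Pool.Agent.Lib.SmD.chi (RatFunc k) _ (sg Ω (placeOf P hP)) = 0 at e4
            rw [e3, e4, add_zero]
          rw [e1, e3 i j hij]
          rfl
        · left
          refine ⟨⟨P, hP, hPm, rfl, hPb⟩, ?_, ?_⟩
          · exact H.sg_of_not_dvd hP hPD
          · change thJ a hneg (sg Ω (placeOf P hP)) = 0
            apply Subtype.ext
            funext i
            rw [thJ, L.degv_val]
            refine Finset.sum_eq_zero fun j _ => ?_
            by_cases hij : i = j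
            · rw [if_pos hij]
            · rw [if_neg hij, e3 i j hij]
  · rw [card_unr_sysOf a h]
    exact ⟨2 ^ g, by rw [← mul_pow]; norm_num⟩
  · rw [card_unr_sysOf a h]
    positivity

end

end Pool.Agent.SmJ
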