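import Pool.Agent.Lib.SmJ.Inst.Inst
import Pool.Agent.Lib.SmJ.E.Half
import Pool.Agent.Lib.SmJ.E.Good

/-!
SMITH for Jacobians over `F_q(t)` (MP_950c68_ag), instance: `EFacts` from the local finiteness
(part E3).
-/

set_option autoImplicit false

open Polynomial Pool.Agent.BSDFF Pool.Agent.Lib.SmD Pool.Agent.SmithE Pool.Agent.BSDP.R

namespace Pool.Agent.SmJ

open L (EV dotE rts map_rts dpr dvd_dpr)

variable {k : Type} [Field k] {g : ℕ} [Finite k] {Ω : Type} [Field Ω] [Algebra (RatFunc k) Ω]

/-- The residue fields of `Ω` are infinite. -/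
theorem infinite_resF [IsSepClosure (RatFunc k) Ω] (w : ValuationSubring Ω) :
    Infinite (IsLocalRing.ResidueField w) := by
  have : IsSepClosed Ω := IsSepClosure.sep_closed (RatFunc k)
  obtain ⟨p, hp⟩ := CharP.exists k
  have hpp : Fact p.Prime := by
    rcases CharP.char_is_prime_or_zero k p with h | h
    · exact ⟨h⟩
    · exfalso
      subst h
      have : CharZero k := CharP.charP_to_charZero k
      exact not_finite k
  have : CharP k[X] p := inferInstance
  have : CharP (RatFunc k) p :=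
    charP_of_injective_algebraMap (IsFractionRing.injective k[X] (RatFunc k)) p
  have : CharP Ω p := charP_of_injective_algebraMap (algebraMap (RatFunc k) Ω).injective p
  exact infinite_res p w

theorem good_triv_iner [IsSepClosure (RatFunc k) Ω] (a : Fin (2 * g + 1) → k[X]) [HypP a]
    {P : k[X]} (hP : Irreducible P) (hgood : ¬ P ∣ dpr a) {s : Ω ≃ₐ[RatFunc k] Ω}
    (hs : s ∈ iner (RatFunc k) (ab Ω (placeOf P hP))) (Q : VJ Ω (rfa a)) : s • Q = Q := by
  have : IsSepClosed Ω := IsSepClosure.sep_closed (RatFunc k)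
  have : Infinite (RatFunc k) := Infinite.of_injective _ (IsFractionRing.injective k[X] (RatFunc k))
  have : Infinite Ω := Infinite.of_injective _ (algebraMap (RatFunc k) Ω).injective
  have := infinite_resF (k := k) (ab Ω (placeOf P hP))
  obtain ⟨j, hj⟩ := Q.2
  apply Subtype.ext
  refine good_fix_a (w := ab Ω (placeOf P hP)) (a := rts Ω (rfa a)) (val_two (HypP.two a) _) ?_ ?_
    hs (fun i => s.commutes _) hj
  · intro i
    exact val_poly_le P hP (a i)
  · intro i j hij
    have h := val_poly_eq_one (Om := Ω) hP (f := a i - a j) fun hd => hgood (hd.trans (dvd_dpr hij))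
    rwa [map_sub, map_sub] at h

/-- `EFacts` from E3. -/
theorem eFacts_of [IsSepClosure (RatFunc k) Ω] (a : Fin (2 * g + 1) → k[X]) [HypP a]
    (hfin : ∀ (v : Place k (RatFunc k)) (chi : (Ω ≃ₐ[RatFunc k] Ω) → ZMod 2),
      (sysOf Ω a).HomG chi → {Q : VJ Ω (rfa a) | ∀ s ∈ dv Ω v, dl chi Q s = 0}.Finite) :
    EFacts Ω a := by
  have : IsSepClosed Ω := IsSepClosure.sep_closed (RatFunc k)
  have : IsGalois (RatFunc k) Ω := inferInstance
  refine ⟨fun Q => exists_half Q, fun j => ?_, fun P hP h s hs Q => good_triv_iner a hP h hs Q, hfin⟩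
  obtain ⟨N, hN, h⟩ := act_fin_of (a := rfa a) (Ω := Ω) (fun Q => exists_half Q) j
  refine ⟨N, hN, fun s hs Q hQ => ?_⟩
  exact congrArg Subtype.val (h s hs ⟨Q, j, hQ⟩ (Subtype.ext hQ))

end Pool.Agent.SmJ
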