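import Pool.Agent.Lib.SmJ.E.FinInv
import Pool.Agent.Lib.SmJ.Inst.Inst

/-!
SMITH for Jacobians over `F_q(t)` (MP_950c68_ag), instance: the field `fin` of `EFacts` (local
finiteness, part E3).
-/

set_option autoImplicit false

open Polynomial Pool.Agent.BSDFF Pool.Agent.Lib.SmD Pool.Agent.SmithE Pool.Agent.BSDP.R

namespace Pool.Agent.SmJ

open L (EV rts)

variable {k : Type} [Field k] [Finite k] {g : ℕ} {Ω : Type} [Field Ω] [Algebra (RatFunc k) Ω]

theorem fin_sysOf [IsSepClosure (RatFunc k) Ω] (a : Fin (2 * g + 1) → k[X]) [HypP a]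
    (v : Place k (RatFunc k)) (chi : (Ω ≃ₐ[RatFunc k] Ω) → ZMod 2) :
    {Q : VJ Ω (rfa a) | ∀ s ∈ dv Ω v, dl chi Q s = 0}.Finite := by
  have h2 : (2 : k) ≠ 0 := HypP.two a
  have : IsSepClosed Ω := IsSepClosure.sep_closed (RatFunc k)
  have : IsGalois (RatFunc k) Ω := inferInstance
  have : Infinite (RatFunc k) := Infinite.of_injective _ (IsFractionRing.injective k[X] (RatFunc k))
  obtain ⟨p, hp⟩ := CharP.exists k
  have hpp : Fact p.Prime := ⟨(CharP.char_is_prime_or_zero k p).resolve_right fun h0 => by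
    subst h0
    have := CharP.charP_to_charZero k
    exact not_finite k⟩
  have hpΩ : CharP Ω p :=
    charP_of_injective_ringHom ((algebraMap (RatFunc k) Ω).comp (algebraMap k (RatFunc k))).injective p
  have : Infinite (IsLocalRing.ResidueField (ab Ω v)) := infinite_res p (ab Ω v)
  obtain ⟨π, hπ, hL⟩ := exists_locHyp (Om := Ω) h2 v
  have hval : ∀ x : Ω, x ≠ 0 → (∀ s ∈ dec (RatFunc k) (ab Ω v), s x = x) →
      ∃ n : ℤ, (ab Ω v).valuation x =
        (ab Ω v).valuation (algebraMap (RatFunc k) Ω (π : RatFunc k)) ^ n :=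
    fun x hx hfix => value_iner hL hx fun σ hσ => hfix σ (iner_le_dec _ _ hσ)
  have H := fin_invK (rfa a) hL (ph_frob v) hval
  refine (H.preimage (Subtype.val_injective.injOn)).subset ?_
  intro Q hQ
  refine ⟨?_, fun s hs => ?_⟩
  · obtain ⟨j, hj⟩ := Q.2
    exact ⟨j, by exact_mod_cast hj⟩
  · have h := congrArg Subtype.val (hQ s hs)
    have h1 : sgn (chi s) • actK (rfa a) s Q.1 - Q.1 = 0 := h
    rw [sub_eq_zero] at h1
    by_cases hc : chi s = 0
    · left
      rwa [hc, sgn, if_pos rfl, one_zsmul] at h1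
    · right
      rw [sgn, if_neg hc, neg_one_zsmul] at h1
      exact neg_eq_iff_eq_neg.mp h1

end Pool.Agent.SmJ
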