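import Pool.Agent.Lib.SmJ.Inst.VJ
import Pool.Agent.Lib.SmJ.E.MumfC
import Pool.Agent.Lib.SmJ.E4.Use
import Pool.Agent.Lib.SmJ.L.GenGraph

/-!
SMITH for Jacobians (MP_950c68_ag), instance: isotropy of the local Kummer groups of the twists and
the vanishing of the quadratic forms (`isotJ`, `quadJ`), from part E4 for the curve with roots
`D a i`.
-/

set_option autoImplicit false

open Polynomial

namespace Pool.Agent.SmJ

open L (EV dotE dotE_apply rts map_rts)
open Pool.Agent.Lib.SmD Pool.Agent.SmithE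

theorem fixPair {K Om : Type} [Field K] [Field Om] [Algebra K Om] {g : ℕ}
    (s φ : Om ≃ₐ[K] Om) (a : Fin (2 * g + 1) → Om) [HypA a] : E4.FixPair s φ a := by
  intro hs hφ C h1 h2
  obtain ⟨U, V, hU, hg, hV, ⟨c, hc⟩, rfl⟩ := exists_red (natDegree_ff a) C
  obtain ⟨u1, v1⟩ := fixed_pair (natDegree_ff a) _ _ hU hg hV ⟨c, hc⟩ h1
  obtain ⟨u2, v2⟩ := fixed_pair (natDegree_ff a) _ _ hU hg hV ⟨c, hc⟩ h2
  exact ⟨U, V, -c, ⟨hU, hg, hV, by linear_combination -hc⟩, u1, u2, v1, v2, rfl⟩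

section

variable {K Om : Type} [Field K] [Field Om] [Algebra K Om] {g : ℕ} (a : Fin (2 * g + 1) → K)
  [HypK a]

/-- The pairs of values. -/
def prs (x : EV g × EV g) (i : Fin (2 * g + 1)) : ZMod 2 × ZMod 2 := (x.1.1 i, x.2.1 i)

theorem sum_prs (x : EV g × EV g) : ∑ i, prs x i = 0 := by
  apply Prod.ext
  · rw [Prod.fst_sum]
    exact x.1.2
  · rw [Prod.snd_sum]
    exact x.2.2

theorem prs_add (x y : EV g × EV g) : prs (x + y) = prs x + prs y := rfl

theorem sym_eq_brk (ep : ZMod 2) (x y : EV g × EV g) :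
    sym (dotE g) ep x y = ∑ i, E4.brk ep (prs x i) (prs y i) := by
  rw [sym, dotE_apply, dotE_apply, dotE_apply, Finset.mul_sum, ← Finset.sum_add_distrib,
    ← Finset.sum_add_distrib]
  rfl

/-- The action on the Jacobian of the twist. -/
theorem act_twist {D : K} {δ : Om} (hδ : δ ^ 2 = algebraMap K Om D) (hδ0 : δ ≠ 0)
    [HypA fun i => algebraMap K Om D * rts Om a i] {s : Om ≃ₐ[K] Om}
    (hs : ∀ i, s (algebraMap K Om D * rts Om a i) = algebraMap K Om D * rts Om a i)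
    {Q : VJ Om a} {x : EV g} (h : dl (chi K D) Q s = iotaJ Om a x) :
    act (s : Om ≃+* Om) (map_ff _ hs) (twIso (rts Om a) hδ hδ0 Q.1) =
      twIso (rts Om a) hδ hδ0 Q.1 + ∑ i, (x.1 i).val • ee (fun i => algebraMap K Om D * rts Om a i) i := by
  have h1 : sgn (chi K D s) • actK a s Q.1 = Q.1 + io (rts Om a) x.1 := by
    have h2 := congrArg Subtype.val h
    change sgn (chi K D s) • actK a s Q.1 - Q.1 = io (rts Om a) x.1 at h2
    rw [← h2]
    abel
  have h2 := twJ_act (a := rts Om a) s (fun i => s.commutes (a i)) hδ hδ0 (map_ff _ hs) Q.1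
  change act s.toRingEquiv _ _ = _
  rw [h2, ← map_zsmul]
  change twIso (rts Om a) hδ hδ0 (sgn (chi K D s) • actK a s Q.1) = _
  rw [h1, map_add, io_val, map_sum]
  congr 1
  refine Finset.sum_congr rfl fun i _ => ?_
  rw [map_nsmul, twJ_ee]

variable [Infinite K] [IsSepClosed Om] {w : ValuationSubring Om}

/-- **Isotropy of the local Kummer groups** (E4). -/
theorem isotJ (hv2 : w.valuation 2 = 1) {s φ : Om ≃ₐ[K] Om} (hs : s ∈ iner K w)
    (hφ : IsFrob K w φ) {m : ℕ} (hq : resCard (below K w) = 2 * m + 1) {D : K} (hD : D ≠ 0)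
    {Q Q' : VJ Om a} {x y : EV g × EV g} (hx1 : dl (chi K D) Q s = iotaJ Om a x.1)
    (hx2 : dl (chi K D) Q φ = iotaJ Om a x.2) (hy1 : dl (chi K D) Q' s = iotaJ Om a y.1)
    (hy2 : dl (chi K D) Q' φ = iotaJ Om a y.2) : sym (dotE g) (m : ZMod 2) x y = 0 := by
  have h20 : (2 : Om) ≠ 0 := two_ne_zero_Om hv2
  have hD' : algebraMap K Om D ≠ 0 := (map_ne_zero_iff _ (algebraMap K Om).injective).mpr hD
  obtain ⟨δ, hδ⟩ := exists_sqrt h20 (algebraMap K Om D)
  have hδ0 : δ ≠ 0 := by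
    rintro rfl
    exact hD' (by rw [← hδ]; ring)
  have hA : HypA fun i => algebraMap K Om D * rts Om a i := HypA.mul hD'
  have hfix : ∀ (t : Om ≃ₐ[K] Om) i, t (algebraMap K Om D * rts Om a i) =
      algebraMap K Om D * rts Om a i := by
    intro t i
    rw [map_mul, t.commutes, t.commutes]
  rw [sym_eq_brk]
  exact E4.isot_cls (a := fun i => algebraMap K Om D * rts Om a i) hv2 hs hφ hq (hfix s) (hfix φ)
    (fixPair _ _ _) (sum_prs x) (sum_prs y) (act_twist a hδ hδ0 (hfix s) hx1)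
    (act_twist a hδ hδ0 (hfix φ) hx2) (act_twist a hδ hδ0 (hfix s) hy1)
    (act_twist a hδ hδ0 (hfix φ) hy2)

/-- **The quadratic forms vanish on the local Kummer groups.** -/
theorem quadJ (hv2 : w.valuation 2 = 1) {s φ : Om ≃ₐ[K] Om} (hs : s ∈ iner K w)
    (hφ : IsFrob K w φ) {m : ℕ} (hq : resCard (below K w) = 2 * m + 1) {D : K} (hD : D ≠ 0)
    {Q : VJ Om a} {x : EV g × EV g} (hx1 : dl (chi K D) Q s = iotaJ Om a x.1)
    (hx2 : dl (chi K D) Q φ = iotaJ Om a x.2) {δ : Fin (2 * g + 1) → ZMod 2 × ZMod 2}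
    (hδ : ∀ i, ∃ r : Om, r ^ 2 = E4.dd (rts Om a) i ∧ Sg s r (δ i).1 ∧ Sg φ r (δ i).2) :
    E4.hs (m : ZMod 2) (prs x) + ∑ i, E4.brk (m : ZMod 2) (δ i) (prs x i) = 0 := by
  have h20 : (2 : Om) ≠ 0 := two_ne_zero_Om hv2
  have hD' : algebraMap K Om D ≠ 0 := (map_ne_zero_iff _ (algebraMap K Om).injective).mpr hD
  obtain ⟨d, hd⟩ := exists_sqrt h20 (algebraMap K Om D)
  have hd0 : d ≠ 0 := by
    rintro rfl
    exact hD' (by rw [← hd]; ring)
  have hA : HypA fun i => algebraMap K Om D * rts Om a i := HypA.mul hD'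
  have hfix : ∀ (t : Om ≃ₐ[K] Om) i, t (algebraMap K Om D * rts Om a i) =
      algebraMap K Om D * rts Om a i := by
    intro t i
    rw [map_mul, t.commutes, t.commutes]
  refine E4.quad_cls (a := fun i => algebraMap K Om D * rts Om a i) hv2 hs hφ hq (hfix s) (hfix φ)
    (fixPair _ _ _) (sum_prs x) (act_twist a hd hd0 (hfix s) hx1)
    (act_twist a hd hd0 (hfix φ) hx2) fun i => ?_
  obtain ⟨r, h1, h3, h4⟩ := hδ i
  refine ⟨algebraMap K Om D ^ g * r, ?_, ?_, ?_⟩
  · rw [mul_pow, h1, E4.dd, E4.dd]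
    have h5 : ∀ j ∈ Finset.univ.erase i, algebraMap K Om D * rts Om a i -
        algebraMap K Om D * rts Om a j = algebraMap K Om D * (rts Om a i - rts Om a j) :=
      fun j _ => by ring
    rw [Finset.prod_congr rfl h5, Finset.prod_mul_distrib, Finset.prod_const,
      Finset.card_erase_of_mem (Finset.mem_univ i), Finset.card_univ, Fintype.card_fin,
      Nat.add_sub_cancel]
    ring
  · have h6 : Sg s (algebraMap K Om D ^ g) 0 := by
      rw [Sg_zero, map_pow, s.commutes]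
    have h7 := h6.mul h3
    rwa [zero_add] at h7
  · have h6 : Sg φ (algebraMap K Om D ^ g) 0 := by
      rw [Sg_zero, map_pow, φ.commutes]
    have h7 := h6.mul h4
    rwa [zero_add] at h7

end

end Pool.Agent.SmJ
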